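import Mathlib

open Filter Topology

namespace Pool.Agent.Results.MP_714461_an.NowhereGateaux

/-- Gateaux differentiability of `φ` at `x₀`. -/
def GateauxAt {X Y : Type} [NormedAddCommGroup X] [NormedSpace ℝ X] [NormedAddCommGroup Y]
    [NormedSpace ℝ Y] (φ : X → Y) (x₀ : X) : Prop :=
  ∃ T : X →L[ℝ] Y, ∀ h : X,
    Tendsto (fun t : ℝ => t⁻¹ • (φ (x₀ + t • h) - φ x₀)) (𝓝[≠] 0) (𝓝 (T h))

abbrev E : Type := lp (fun _ : ℝ => ℝ) 2

theorem mem_of {f : ℝ → ℝ} {K : ℝ} (hK : 0 ≤ K) (h0 : f 0 = 0)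
    (hf : ∀ a b, |f a - f b| ≤ K * |a - b|) (x : E) : Memℓp (fun i => f (x i)) 2 := by
  refine ((lp.memℓp x).const_smul K).mono' fun i => ?_
  have := hf (x i) 0
  rw [h0, sub_zero, sub_zero] at this
  simpa [abs_mul, abs_of_nonneg hK] using this

noncomputable def lift {f : ℝ → ℝ} {K : ℝ} (hK : 0 ≤ K) (h0 : f 0 = 0)
    (hf : ∀ a b, |f a - f b| ≤ K * |a - b|) (x : E) : E := ⟨fun i => f (x i), mem_of hK h0 hf x⟩

theorem lift_lip {f : ℝ → ℝ} {K : ℝ} (hK : 0 ≤ K) (h0 : f 0 = 0)
    (hf : ∀ a b, |f a - f b| ≤ K * |a - b|) : LipschitzWith K.toNNReal (lift hK h0 hf) := by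
  refine LipschitzWith.of_dist_le_mul fun x y => ?_
  rw [dist_eq_norm, dist_eq_norm]
  have : (K.toNNReal : ℝ) * ‖x - y‖ = ‖K • (x - y)‖ := by
    rw [norm_smul, Real.norm_of_nonneg hK, Real.coe_toNNReal _ hK]
  rw [this]
  refine lp.norm_mono (by norm_num) fun i => ?_
  simpa [lift, abs_mul, abs_of_nonneg hK] using hf (x i) (y i)

noncomputable def f (a : ℝ) : ℝ := a + |a| / 2
noncomputable def g (a : ℝ) : ℝ := 4 / 3 * a - 2 / 3 * |a|

theorem hf (a b : ℝ) : |f a - f b| ≤ 2 * |a - b| := by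
  have h1 := abs_abs_sub_abs_le_abs_sub a b
  have h2 := abs_le.1 h1
  have h3 := le_abs_self (a - b)
  have h4 := neg_abs_le (a - b)
  unfold f
  rw [abs_le]; constructor <;> linarith [h2.1, h2.2]

theorem hg (a b : ℝ) : |g a - g b| ≤ 2 * |a - b| := by
  have h1 := abs_abs_sub_abs_le_abs_sub a b
  have h2 := abs_le.1 h1
  have h3 := le_abs_self (a - b)
  have h4 := neg_abs_le (a - b)
  unfold g
  rw [abs_le]; constructor <;> linarith [h2.1, h2.2]

theorem gf (a : ℝ) : g (f a) = a := by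
  unfold g f
  rcases le_total 0 a with h | h
  · rw [abs_of_nonneg h, abs_of_nonneg (by linarith)]; ring
  · rw [abs_of_nonpos h, abs_of_nonpos (by linarith)]; ring

theorem fg (a : ℝ) : f (g a) = a := by
  unfold g f
  rcases le_total 0 a with h | h
  · rw [abs_of_nonneg h, abs_of_nonneg (by linarith)]; ring
  · rw [abs_of_nonpos h, abs_of_nonpos (by linarith)]; ring

noncomputable def Phi : E ≃ E where
  toFun := lift (f := f) (K := 2) (by norm_num) (by simp [f]) hf
  invFun := lift (f := g) (K := 2) (by norm_num) (by simp [g]) hg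
  left_inv x := by ext i; exact gf _
  right_inv x := by ext i; exact fg _

theorem exists_zero (x : E) : ∃ i, x i = 0 := by
  by_contra h
  push Not at h
  have hs := (lp.memℓp x).summable (by norm_num)
  have hc := hs.countable_support
  have : (Function.support fun i => ‖x i‖ ^ (2 : ENNReal).toReal) = Set.univ := by
    ext i
    simp [h i]
  rw [this] at hc
  exact Cardinal.not_countable_real hc

theorem not_sep : ¬ TopologicalSpace.SeparableSpace E := by
  intro hsep
  obtain ⟨s, hs, hd⟩ := TopologicalSpace.exists_countable_dense E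
  have hc : (⋃ x ∈ s, Function.support fun i => ‖(x : E) i‖ ^ (2 : ENNReal).toReal).Countable :=
    hs.biUnion fun x _ => ((lp.memℓp x).summable (by norm_num)).countable_support
  have : ∃ i, i ∉ ⋃ x ∈ s, Function.support fun i => ‖(x : E) i‖ ^ (2 : ENNReal).toReal := by
    by_contra h
    push Not at h
    exact Cardinal.not_countable_real (hc.mono fun i _ => h i)
  obtain ⟨i, hi⟩ := this
  obtain ⟨y, hy, hy'⟩ := hd.exists_dist_lt (lp.single 2 i (1 : ℝ) : E) one_pos
  have h0 : y i = 0 := by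
    by_contra h
    exact hi (Set.mem_biUnion hy (by simp [h]))
  have := lp.norm_apply_le_norm (p := 2) (by norm_num) (lp.single 2 i (1 : ℝ) - y : E) i
  rw [dist_eq_norm] at hy'
  simp [h0] at this
  linarith

theorem refl : Function.Surjective (NormedSpace.inclusionInDoubleDual ℝ E) := by
  intro F
  set D := InnerProductSpace.toDual ℝ E
  let G : StrongDual ℝ E := F.comp (innerSL ℝ : E →L[ℝ] StrongDual ℝ E)
  refine ⟨D.symm G, ?_⟩
  ext φ
  obtain ⟨y, rfl⟩ := D.surjective φ
  rw [NormedSpace.dual_def]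
  have : D y (D.symm G) = G y := by
    rw [InnerProductSpace.toDual_apply_apply, real_inner_comm,
      InnerProductSpace.toDual_symm_apply]
  rw [this]; rfl

theorem result : ∃ (X Y : Type) (_ : NormedAddCommGroup X) (_ : NormedSpace ℝ X)
    (_ : CompleteSpace X) (_ : NormedAddCommGroup Y) (_ : NormedSpace ℝ Y) (_ : CompleteSpace Y),
    ¬ TopologicalSpace.SeparableSpace X ∧ ¬ TopologicalSpace.SeparableSpace Y ∧
    Function.Surjective (NormedSpace.inclusionInDoubleDual ℝ X) ∧
    Function.Surjective (NormedSpace.inclusionInDoubleDual ℝ Y) ∧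
    UniformConvexSpace X ∧ UniformConvexSpace Y ∧
    ∃ φ : X ≃ Y, (∃ K, LipschitzWith K φ) ∧ (∃ K, LipschitzWith K φ.symm) ∧
      ∀ x₀, ¬ GateauxAt φ x₀ := by
  refine ⟨E, E, inferInstance, inferInstance, inferInstance, inferInstance, inferInstance,
    inferInstance, not_sep, not_sep, refl, refl, inferInstance, inferInstance, Phi,
    ⟨_, lift_lip (by norm_num) (by simp [f]) hf⟩, ⟨_, lift_lip (by norm_num) (by simp [g]) hg⟩, ?_⟩
  rintro x ⟨T, hT⟩
  obtain ⟨i, hi⟩ := exists_zero x
  have hc : Continuous fun y : E => y i := (lp.uniformContinuous_coe.continuous |>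
    (continuous_apply i).comp)
  have H := (hc.tendsto _).comp (hT (lp.single 2 i 1))
  have e : ∀ t : ℝ, ((fun y : E => y i) ∘ fun t : ℝ =>
      t⁻¹ • (Phi (x + t • lp.single 2 i 1) - Phi x)) t = t⁻¹ * (t + |t| / 2) := by
    intro t
    simp [Phi, lift, hi, f]
  rw [funext e] at H
  have h1 : Tendsto (fun t : ℝ => t⁻¹ * (t + |t| / 2)) (𝓝[>] 0) (𝓝 (3 / 2)) := by
    refine tendsto_const_nhds.congr' ?_
    filter_upwards [self_mem_nhdsWithin] with t ht
    have : (0 : ℝ) < t := ht
    rw [abs_of_pos this]; field_simp; ring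
  have h2 : Tendsto (fun t : ℝ => t⁻¹ * (t + |t| / 2)) (𝓝[<] 0) (𝓝 (1 / 2)) := by
    refine tendsto_const_nhds.congr' ?_
    filter_upwards [self_mem_nhdsWithin] with t ht
    have : t < 0 := ht
    rw [abs_of_neg this]; field_simp [this.ne]; ring
  have a := tendsto_nhds_unique (H.mono_left (nhdsGT_le_nhdsNE 0)) h1
  have b := tendsto_nhds_unique (H.mono_left (nhdsLT_le_nhdsNE 0)) h2
  rw [a] at b
  norm_num at b

end Pool.Agent.Results.MP_714461_an.NowhereGateaux
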